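import Pool.Agent.H48.FR.Targets

set_option autoImplicit false

namespace Pool.Agent.H13.FR

open Pool.Agent.H48.FR Polynomial

theorem nv : T_NV := by
  intro m a c h
  set P : ℂ[X] := C ((a : ℂ) / 2) * ((1 + C Complex.I * X) ^ (m + 2) +
    (1 - C Complex.I * X) ^ (m + 2)) +
    (1 + X ^ 2) * ∑ k ∈ Finset.range (m + 1), C ((c k : ℂ)) * X ^ k with hP
  have hreal : ∀ x : ℝ, P.eval (x : ℂ) = 0 := by
    intro x
    set t := Real.arctan x with ht
    have hc : 0 < Real.cos t := Real.cos_arctan_pos x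
    have hs : Real.sin t = x * Real.cos t := by
      have h1 := Real.tan_arctan x
      rw [← ht, Real.tan_eq_sin_div_cos] at h1
      field_simp at h1
      linarith
    have hx : (1 + x ^ 2) * Real.cos t ^ 2 = 1 := by
      have := Real.sin_sq_add_cos_sq t
      rw [hs] at this
      nlinarith
    have h2 := h t
    -- de Moivre
    have hm : (Complex.cos (t : ℂ) + Complex.sin (t : ℂ) * Complex.I) ^ (m + 2) =
        Complex.cos ((m + 2 : ℕ) * (t : ℂ)) + Complex.sin ((m + 2 : ℕ) * (t : ℂ)) * Complex.I :=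
      Complex.cos_add_sin_mul_I_pow (m + 2) (t : ℂ)
    have hm' : (Complex.cos (t : ℂ) - Complex.sin (t : ℂ) * Complex.I) ^ (m + 2) =
        Complex.cos ((m + 2 : ℕ) * (t : ℂ)) - Complex.sin ((m + 2 : ℕ) * (t : ℂ)) * Complex.I := by
      have := Complex.cos_add_sin_mul_I_pow (m + 2) (-(t : ℂ))
      rw [Complex.cos_neg, Complex.sin_neg, mul_neg, Complex.cos_neg, Complex.sin_neg] at this
      rw [neg_mul, neg_mul, ← sub_eq_add_neg, ← sub_eq_add_neg] at this
      exact this
    have hcc : Complex.cos (t : ℂ) = (Real.cos t : ℂ) := (Complex.ofReal_cos t).symm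
    have hss : Complex.sin (t : ℂ) = (x : ℂ) * (Real.cos t : ℂ) := by
      rw [← Complex.ofReal_sin, hs]; push_cast; ring
    have hsum : ((Real.cos t : ℂ)) ^ (m + 2) * ((1 + Complex.I * x) ^ (m + 2) +
        (1 - Complex.I * x) ^ (m + 2)) = 2 * ((Real.cos ((m + 2 : ℕ) * t) : ℝ) : ℂ) := by
      rw [mul_add, ← mul_pow, ← mul_pow]
      have e1 : (Real.cos t : ℂ) * (1 + Complex.I * x) =
          Complex.cos (t : ℂ) + Complex.sin (t : ℂ) * Complex.I := by
        rw [hcc, hss]; ring
      have e2 : (Real.cos t : ℂ) * (1 - Complex.I * x) =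
          Complex.cos (t : ℂ) - Complex.sin (t : ℂ) * Complex.I := by
        rw [hcc, hss]; ring
      rw [e1, e2, hm, hm']
      push_cast
      ring
    have htp : tp m c t = Real.cos t ^ m * ∑ k ∈ Finset.range (m + 1), c k * x ^ k := by
      rw [tp, Finset.mul_sum]
      refine Finset.sum_congr rfl (fun k hk => ?_)
      have hk' : k ≤ m := by rw [Finset.mem_range] at hk; omega
      rw [hs, mul_pow]
      have : Real.cos t ^ m = Real.cos t ^ (m - k) * Real.cos t ^ k := by
        rw [← pow_add]; congr 1; omega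
      rw [this]; ring
    have hcne : ((Real.cos t : ℂ)) ^ (m + 2) ≠ 0 := by
      apply pow_ne_zero
      exact_mod_cast hc.ne'
    have key : ((Real.cos t : ℂ)) ^ (m + 2) * P.eval (x : ℂ) = 0 := by
      have hev : P.eval (x : ℂ) = (a : ℂ) / 2 * ((1 + Complex.I * x) ^ (m + 2) +
          (1 - Complex.I * x) ^ (m + 2)) +
          (1 + (x : ℂ) ^ 2) * ∑ k ∈ Finset.range (m + 1), (c k : ℂ) * (x : ℂ) ^ k := by
        rw [hP]
        simp [eval_finsetSum]
      rw [hev, mul_add]
      have e3 : ((Real.cos t : ℂ)) ^ (m + 2) * ((a : ℂ) / 2 * ((1 + Complex.I * x) ^ (m + 2) +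
          (1 - Complex.I * x) ^ (m + 2))) = (a : ℂ) * ((Real.cos ((m + 2 : ℕ) * t) : ℝ) : ℂ) := by
        calc _ = (a : ℂ) / 2 * (((Real.cos t : ℂ)) ^ (m + 2) * ((1 + Complex.I * x) ^ (m + 2) +
          (1 - Complex.I * x) ^ (m + 2))) := by ring
          _ = _ := by rw [hsum]; ring
      have e4 : ((Real.cos t : ℂ)) ^ (m + 2) * ((1 + (x : ℂ) ^ 2) *
          ∑ k ∈ Finset.range (m + 1), (c k : ℂ) * (x : ℂ) ^ k) = ((tp m c t : ℝ) : ℂ) := by
        rw [htp]
        have hx' : (1 + (x : ℂ) ^ 2) * (Real.cos t : ℂ) ^ 2 = 1 := by exact_mod_cast hx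
        push_cast
        calc _ = ((1 + (x : ℂ) ^ 2) * (Real.cos t : ℂ) ^ 2) * ((Real.cos t : ℂ) ^ m *
          ∑ k ∈ Finset.range (m + 1), (c k : ℂ) * (x : ℂ) ^ k) := by push_cast; ring
          _ = _ := by rw [hx']; push_cast; ring
      rw [e3, e4]
      exact_mod_cast h2
    rcases mul_eq_zero.mp key with h0 | h0
    · exact absurd h0 hcne
    · exact h0
  have hP0 : P = 0 := by
    apply Polynomial.eq_zero_of_infinite_isRoot
    apply Set.Infinite.mono (s := Set.range (fun x : ℝ => (x : ℂ)))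
    · rintro _ ⟨x, rfl⟩
      exact hreal x
    · exact Set.infinite_range_of_injective Complex.ofReal_injective
  have hI : P.eval Complex.I = (a : ℂ) / 2 * 2 ^ (m + 2) := by
    rw [hP]
    simp only [eval_add, eval_mul, eval_C, eval_pow, eval_one, eval_X, eval_sub, Complex.I_mul_I,
      Complex.I_sq]
    norm_num
  rw [hP0, eval_zero] at hI
  have h3 : (a : ℂ) = 0 := by
    have h4 : (a : ℂ) / 2 * 2 ^ (m + 2) = 0 := hI.symm
    rcases mul_eq_zero.mp h4 with h5 | h5
    · simpa using h5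
    · exact absurd h5 (pow_ne_zero _ two_ne_zero)
  exact_mod_cast h3

end Pool.Agent.H13.FR
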